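import Pool.Agent.Work.MP_e9f12e_ag.Main

/-!
# The Bernoulli moment inequalities fail for `x^3 y + x y^3 + z^4 w + z w^4 + x y z w`
-/

namespace Pool.Agent.Results.MP_e9f12e_ag.MomentsFail

open HV

/-- The germ `f0 = x^3 y + x y^3 + z^4 w + z w^4 + x y z w` in four variables is an isolated
hypersurface singularity with Milnor number 132, the V-filtration of its Gauss-Manin system exists
and is unique, its normalized spectrum is the explicit tuple `spec` of 132 rational numbers from
`-1` to `1`, so `ν = 2`, the variance is larger than `ν / 12`, and the second Bernoulli moment is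
`1/180 > 0`, that is `(-1)^k Γ_{2k} < 0` for `k = 1`. So the conjecture is false. -/
theorem result :
    IsIsolatedSingularity f0 ∧ milnorNumber f0 = 132 ∧ (∃! V, IsVFiltration f0 V) ∧
      IsNormalizedSpectrum f0 spec ∧ spec (Fin.last 131) - spec 0 = 2 ∧
      ∑ j, spec j ^ 2 = 3961 / 180 ∧
      (spec (Fin.last 131) - spec 0) / 12 < (∑ j, spec j ^ 2) / 132 ∧
      bernoulliMoment spec (spec (Fin.last 131) - spec 0) 2 = 1 / 180 ∧
      ¬ BernoulliMomentConjecture :=
  ⟨isolated_f0, finrank_milnor 13 mPow_le_jac,
    ⟨Vf, isVFiltration_Vf, fun _ h => vfiltration_unique f0 h isVFiltration_Vf⟩,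
    spectrum_f0, spec_last, spec_sq, by rw [spec_last, spec_sq]; norm_num,
    moment_f0, not_bernoulliMomentConjecture⟩

end Pool.Agent.Results.MP_e9f12e_ag.MomentsFail
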